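import Pool.Agent.W937.FG.Stm

/-!
FG-C0: exact behaviour of the basic budget macros.
-/

set_option autoImplicit false

namespace Pool.Agent.W978.FG

open Function Relation Pool.Agent.W937.FG

abbrev Cf : Type := ℕ × (ℕ → ℕ)

theorem seq_iff {p q : Prog Empty ℕ} {c f : Cf} :
    MExec (.seq p q) c f ↔ ∃ d, MExec p c d ∧ MExec q d f := by
  constructor
  · intro h
    cases h with
    | seq h1 h2 => exact ⟨_, h1, h2⟩
  · rintro ⟨d, h1, h2⟩
    exact .seq h1 h2

theorem inc_iff {i x y : ℕ} {s u : ℕ → ℕ} :
    MExec (.op (.inc i)) (x, s) (y, u) ↔ x = y + 1 ∧ u = update s i (s i + 1) := by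
  constructor
  · intro h
    cases h with
    | inc => exact ⟨rfl, rfl⟩
  · rintro ⟨rfl, rfl⟩
    exact .inc _ _ _

theorem dec_iff {i x y : ℕ} {s u : ℕ → ℕ} :
    MExec (.op (.dec i)) (x, s) (y, u) ↔ 0 < s i ∧ y = x + 1 ∧ u = update s i (s i - 1) := by
  constructor
  · intro h
    cases h with
    | dec _ _ _ h => exact ⟨h, rfl, rfl⟩
  · rintro ⟨h, rfl, rfl⟩
    exact .dec _ _ _ h

theorem zero_iff {i x y : ℕ} {s u : ℕ → ℕ} :
    MExec (.op (.zero i)) (x, s) (y, u) ↔ s i = 0 ∧ y = x ∧ u = s := by
  constructor
  · intro h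
    cases h with
    | zero _ _ _ h => exact ⟨h, rfl, rfl⟩
  · rintro ⟨h, rfl, rfl⟩
    exact .zero _ _ _ h

theorem star_iff {p : Prog Empty ℕ} {c d : Cf} :
    MExec (.star p) c d ↔ ReflTransGen (MExec p) c d := by
  constructor
  · intro h
    generalize hq : Prog.star p = q at h
    induction h with
    | star_nil c => exact .refl
    | star_cons h1 h2 ih1 ih2 =>
      cases hq
      exact (ReflTransGen.single h1).trans (ih2 rfl)
    | _ => cases hq
  · intro h
    induction h using ReflTransGen.head_induction_on with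
    | refl => exact .star_nil _
    | head h1 _ ih => exact .star_cons h1 ih

/-- star of a decrement -/
theorem star_dec {i x y : ℕ} {s u : ℕ → ℕ} : MExec (.star (.op (.dec i))) (x, s) (y, u) ↔
    ∃ c, c ≤ s i ∧ y = x + c ∧ u = update s i (s i - c) := by
  constructor
  · intro h
    rw [star_iff] at h
    generalize hc : ((x, s) : Cf) = c at h
    generalize hd : ((y, u) : Cf) = d at h
    induction h generalizing y u with
    | refl =>
      rw [← hc] at hd
      cases hd
      exact ⟨0, by omega, by omega, by simp⟩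
    | @tail b d _ h2 ih =>
      subst hd
      obtain ⟨z, w⟩ := b
      obtain ⟨c, h3, rfl, rfl⟩ := ih rfl
      obtain ⟨h4, rfl, rfl⟩ := dec_iff.mp h2
      simp only [update_self] at h4
      refine ⟨c + 1, by omega, by omega, ?_⟩
      rw [update_idem, update_self]
      congr 1
  · rintro ⟨c, hc, rfl, rfl⟩
    induction c generalizing x s with
    | zero => simpa using MExec.star_nil _
    | succ c ih =>
      have h1 : MExec (.op (.dec i)) (x, s) (x + 1, update s i (s i - 1)) :=
        dec_iff.mpr ⟨by omega, rfl, rfl⟩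
      have h2 := @ih (x + 1) (update s i (s i - 1)) (by simp; omega)
      refine .star_cons h1 ?_
      rw [update_idem, update_self] at h2
      have e1 : x + 1 + c = x + (c + 1) := by omega
      have e2 : s i - 1 - c = s i - (c + 1) := by omega
      rw [e1, e2] at h2
      exact h2

/-- one round of the transfer -/
theorem step_move {i j x y : ℕ} {s u : ℕ → ℕ} (hij : i ≠ j) :
    MExec (.seq (.op (.dec i)) (.op (.inc j))) (x, s) (y, u) ↔
      0 < s i ∧ y = x ∧ u = update (update s i (s i - 1)) j (s j + 1) := by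
  constructor
  · intro h
    obtain ⟨⟨z, w⟩, h1, h2⟩ := seq_iff.mp h
    obtain ⟨h3, rfl, rfl⟩ := dec_iff.mp h1
    obtain ⟨h4, rfl⟩ := inc_iff.mp h2
    refine ⟨h3, by omega, ?_⟩
    rw [update_of_ne hij.symm]
  · rintro ⟨h, rfl, rfl⟩
    refine .seq (dec_iff.mpr ⟨h, rfl, rfl⟩) (inc_iff.mpr ⟨rfl, ?_⟩)
    rw [update_of_ne hij.symm]

/-- star of the transfer -/
theorem star_move {i j x y : ℕ} {s u : ℕ → ℕ} (hij : i ≠ j) :
    MExec (.star (.seq (.op (.dec i)) (.op (.inc j)))) (x, s) (y, u) ↔
      ∃ c, c ≤ s i ∧ y = x ∧ u = update (update s i (s i - c)) j (s j + c) := by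
  constructor
  · intro h
    rw [star_iff] at h
    generalize hc : ((x, s) : Cf) = c at h
    generalize hd : ((y, u) : Cf) = d at h
    induction h generalizing y u with
    | refl =>
      rw [← hc] at hd
      cases hd
      refine ⟨0, by omega, rfl, ?_⟩
      simp
    | @tail b d _ h2 ih =>
      subst hd
      obtain ⟨z, w⟩ := b
      obtain ⟨c, h3, rfl, rfl⟩ := ih rfl
      obtain ⟨h4, rfl, rfl⟩ := (step_move hij).mp h2
      rw [update_of_ne hij, update_self] at h4
      refine ⟨c + 1, by omega, rfl, ?_⟩
      funext k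
      simp only [update_apply]
      split_ifs <;> omega
  · rintro ⟨c, hc, rfl, rfl⟩
    induction c generalizing s with
    | zero => simpa using MExec.star_nil _
    | succ c ih =>
      have h1 : MExec (.seq (.op (.dec i)) (.op (.inc j))) (y, s)
          (y, update (update s i (s i - 1)) j (s j + 1)) :=
        (step_move hij).mpr ⟨by omega, rfl, rfl⟩
      have h2 := @ih (update (update s i (s i - 1)) j (s j + 1)) (by
        rw [update_of_ne hij, update_self]
        omega)
      refine .star_cons h1 ?_
      have e : update (update (update (update s i (s i - 1)) j (s j + 1)) i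
          (update (update s i (s i - 1)) j (s j + 1) i - c)) j
          (update (update s i (s i - 1)) j (s j + 1) j + c) =
          update (update s i (s i - (c + 1))) j (s j + (c + 1)) := by
        funext k
        simp only [update_apply]
        split_ifs <;> omega
      rw [e] at h2
      exact h2

/-- one round of the copy -/
theorem step_copy {i j t x y : ℕ} {s u : ℕ → ℕ} (hij : i ≠ j) (hit : i ≠ t) (hjt : j ≠ t) :
    MExec (.seq (.op (.dec i)) (.seq (.op (.inc j)) (.op (.inc t)))) (x, s) (y, u) ↔
      0 < s i ∧ x = y + 1 ∧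
        u = update (update (update s i (s i - 1)) j (s j + 1)) t (s t + 1) := by
  constructor
  · intro h
    obtain ⟨⟨z, w⟩, h1, h2⟩ := seq_iff.mp h
    obtain ⟨h3, rfl, rfl⟩ := dec_iff.mp h1
    obtain ⟨⟨z', w'⟩, h4, h5⟩ := seq_iff.mp h2
    obtain ⟨h6, rfl⟩ := inc_iff.mp h4
    obtain ⟨h7, rfl⟩ := inc_iff.mp h5
    refine ⟨h3, by omega, ?_⟩
    rw [update_of_ne hij.symm, update_of_ne hjt.symm, update_of_ne hit.symm]
  · rintro ⟨h, rfl, rfl⟩
    refine .seq (dec_iff.mpr ⟨h, rfl, rfl⟩) (.seq (inc_iff.mpr ⟨rfl, rfl⟩)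
      (inc_iff.mpr ⟨rfl, ?_⟩))
    rw [update_of_ne hij.symm, update_of_ne hjt.symm, update_of_ne hit.symm]

/-- star of the copy -/
theorem star_copy {i j t x y : ℕ} {s u : ℕ → ℕ} (hij : i ≠ j) (hit : i ≠ t) (hjt : j ≠ t) :
    MExec (.star (.seq (.op (.dec i)) (.seq (.op (.inc j)) (.op (.inc t))))) (x, s) (y, u) ↔
      ∃ c, c ≤ s i ∧ x = y + c ∧
        u = update (update (update s i (s i - c)) j (s j + c)) t (s t + c) := by
  constructor
  · intro h
    rw [star_iff] at h
    generalize hc : ((x, s) : Cf) = c at h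
    generalize hd : ((y, u) : Cf) = d at h
    induction h generalizing y u with
    | refl =>
      rw [← hc] at hd
      cases hd
      refine ⟨0, by omega, rfl, ?_⟩
      simp
    | @tail b d _ h2 ih =>
      subst hd
      obtain ⟨z, w⟩ := b
      obtain ⟨c, h3, rfl, rfl⟩ := ih rfl
      obtain ⟨h4, rfl, rfl⟩ := (step_copy hij hit hjt).mp h2
      rw [update_of_ne hit, update_of_ne hij, update_self] at h4
      refine ⟨c + 1, by omega, by omega, ?_⟩
      funext k
      simp only [update_apply]
      split_ifs <;> omega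
  · rintro ⟨c, hc, rfl, rfl⟩
    induction c generalizing s with
    | zero => simpa using MExec.star_nil _
    | succ c ih =>
      have h1 : MExec (.seq (.op (.dec i)) (.seq (.op (.inc j)) (.op (.inc t))))
          (y + (c + 1), s)
          (y + c, update (update (update s i (s i - 1)) j (s j + 1)) t (s t + 1)) :=
        (step_copy hij hit hjt).mpr ⟨by omega, by omega, rfl⟩
      have h2 := @ih (update (update (update s i (s i - 1)) j (s j + 1)) t (s t + 1)) (by
        rw [update_of_ne hit, update_of_ne hij, update_self]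
        omega)
      refine .star_cons h1 ?_
      have e : ∀ v : ℕ → ℕ, v = update (update (update s i (s i - 1)) j (s j + 1)) t (s t + 1) →
          update (update (update v i (v i - c)) j (v j + c)) t (v t + c) =
          update (update (update s i (s i - (c + 1))) j (s j + (c + 1))) t (s t + (c + 1)) := by
        rintro v rfl
        funext k
        simp only [update_apply]
        split_ifs <;> omega
      rw [e _ rfl] at h2
      exact h2

theorem main : PropC0 := by
  refine ⟨?_, ?_, ?_⟩
  · intro i x x' s s'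
    unfold clearP
    rw [seq_iff]
    constructor
    · rintro ⟨⟨z, w⟩, h1, h2⟩
      obtain ⟨c, hc, rfl, rfl⟩ := star_dec.mp h1
      obtain ⟨h3, rfl, rfl⟩ := zero_iff.mp h2
      rw [update_self] at h3
      have e : c = s i := by omega
      subst e
      exact ⟨by rw [Nat.sub_self], rfl⟩
    · rintro ⟨rfl, rfl⟩
      refine ⟨(x + s i, update s i 0), star_dec.mpr ⟨s i, le_rfl, rfl, by rw [Nat.sub_self]⟩,
        zero_iff.mpr ⟨by rw [update_self], rfl, rfl⟩⟩
  · intro i j x x' s s' hij
    unfold moveP
    rw [seq_iff]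
    constructor
    · rintro ⟨⟨z, w⟩, h1, h2⟩
      obtain ⟨c, hc, rfl, rfl⟩ := (star_move hij).mp h1
      obtain ⟨h3, rfl, rfl⟩ := zero_iff.mp h2
      rw [update_of_ne hij, update_self] at h3
      have e : c = s i := by omega
      subst e
      exact ⟨by rw [Nat.sub_self], rfl⟩
    · rintro ⟨rfl, rfl⟩
      refine ⟨(x', update (update s i 0) j (s j + s i)),
        (star_move hij).mpr ⟨s i, le_rfl, rfl, by rw [Nat.sub_self]⟩,
        zero_iff.mpr ⟨by rw [update_of_ne hij, update_self], rfl, rfl⟩⟩
  · intro i j t x x' s s' hij hit hjt hst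
    unfold copyP
    constructor
    · intro h
      obtain ⟨⟨z1, w1⟩, h1, h2⟩ := seq_iff.mp h
      obtain ⟨⟨z2, w2⟩, h3, h4⟩ := seq_iff.mp h2
      obtain ⟨⟨z3, w3⟩, h5, h6⟩ := seq_iff.mp h4
      obtain ⟨c, hc, rfl, rfl⟩ := (star_copy hij hit hjt).mp h1
      obtain ⟨h7, rfl, rfl⟩ := zero_iff.mp h3
      obtain ⟨c', hc', rfl, rfl⟩ := (star_move hit.symm).mp h5
      obtain ⟨h8, rfl, rfl⟩ := zero_iff.mp h6
      rw [update_of_ne hit, update_of_ne hij, update_self] at h7
      have e : c = s i := by omega
      subst e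
      rw [update_self] at hc'
      rw [update_of_ne hit.symm, update_self, update_self] at h8
      have e2 : c' = s i := by omega
      subst e2
      refine ⟨?_, rfl⟩
      funext k
      simp only [update_apply]
      split_ifs <;> first | omega | (subst_vars; omega)
    · rintro ⟨rfl, rfl⟩
      refine .seq ((star_copy hij hit hjt).mpr ⟨s i, le_rfl, rfl, rfl⟩)
        (.seq (zero_iff.mpr ⟨?_, rfl, rfl⟩) (.seq ((star_move hit.symm).mpr
          ⟨s i, ?_, rfl, rfl⟩) (zero_iff.mpr ⟨?_, rfl, ?_⟩)))
      · rw [update_of_ne hit, update_of_ne hij, update_self, Nat.sub_self]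
      · rw [update_self, hst]
        omega
      · rw [update_of_ne hit.symm, update_self, update_self, hst]
        omega
      · funext k
        simp only [update_apply]
        split_ifs <;> first | omega | (subst_vars; omega)

end Pool.Agent.W978.FG
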